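import Pool.Agent.H651Z.Nev.Defs
import Pool.Agent.H651Z.Nev.Main

set_option autoImplicit false

namespace Pool.Agent.Results.MP_f94db8_an.ACounterexample

open Pool.Agent.H651Z.Nev

/-- A holomorphic vector field on `ℂ^3`, not of the form `hP`, with a Zariski dense leaf
uniformized by `ℂ` whose Nevanlinna currents have cluster points, each of which has support
meeting `ℂ^3`. -/
theorem result :
    ∃ (Z : (Fin 3 → ℂ) → (Fin 3 → ℂ)) (φ : ℂ → (Fin 3 → ℂ)),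
      Differentiable ℂ Z ∧ ¬ IsHP Z ∧
      (∀ ζ, HasDerivAt φ (Z (φ ζ)) ζ ∧ Z (φ ζ) ≠ 0) ∧ Function.Injective φ ∧
      Set.range φ = leaf Z (φ 0) ∧
      (∀ Q : MvPolynomial (Fin 3) ℂ,
        (∀ x ∈ leaf Z (φ 0), MvPolynomial.eval x Q = 0) → Q = 0) ∧
      (∃ τ, IsClusterPoint φ τ) ∧
      ∀ τ, IsClusterPoint φ τ → ∃ p : Fin 3 → ℂ, InSupport τ p :=
  ⟨ZZ, phi, ZZ_diff, not_hP, fun ζ => ⟨hasDerivAt_phi ζ, ZZ_ne ζ⟩, phi_inj, range_phi,
    fun Q hQ => zariski Q fun ζ => hQ _ (range_phi ▸ ⟨ζ, rfl⟩), exists_cluster, support_meets⟩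

end Pool.Agent.Results.MP_f94db8_an.ACounterexample
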